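import Pool.Agent.J4H42.CI.CovD

/-! Project CI (helper20), job COV: `Pool.Agent.J4H42.CI.t_COV : S_COV` is in `CovD.lean`. -/
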