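import Pool.Agent.J4H42.CI.Mat
import Pool.Agent.J4H20.CI.Stm

/-! Project CI (helper20), part COV: frames of a lattice, pairs of a point and a frame. -/

open Set

set_option linter.all false

noncomputable section

namespace Pool.Agent.J4H42.CI

open Pool.Agent.J4H20.CI

universe v

variable {d m : ℕ}

/-- `b` is a frame of the lattice `S` -/
def IsFr (b : Fin d → Fin m → ℝ) (S : Set (Fin m → ℝ)) : Prop :=
  LinearIndependent ℝ b ∧ ∀ s, s ∈ S ↔ ∃ n : Fin d → ℤ, s = ∑ i, (n i : ℝ) • b i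

theorem IsFr.li {b : Fin d → Fin m → ℝ} {S : Set (Fin m → ℝ)} (h : IsFr b S) :
    LinearIndependent ℝ b := h.1

theorem IsFr.sm {b : Fin d → Fin m → ℝ} {S : Set (Fin m → ℝ)} (h : IsFr b S)
    (g : (Matrix (Fin d) (Fin d) ℤ)ˣ) :
    IsFr (CI.sm (g : Matrix (Fin d) (Fin d) ℤ) b) S :=
  (basis_iff h.1 h.2 _).2 ⟨g, rfl⟩

theorem IsFr.ex {b v : Fin d → Fin m → ℝ} {S : Set (Fin m → ℝ)} (h : IsFr b S) (h' : IsFr v S) :
    ∃ g : (Matrix (Fin d) (Fin d) ℤ)ˣ, v = CI.sm (g : Matrix (Fin d) (Fin d) ℤ) b :=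
  (basis_iff h.1 h.2 v).1 h'

variable {N : Type v} {L : N → Set (Fin m → ℝ)}

theorem of_bases {p : N × (Fin d → Fin m → ℝ)} (h : p ∈ Bases d L) : IsFr p.2 (L p.1) := h

theorem to_bases {p : N × (Fin d → Fin m → ℝ)} (h : IsFr p.2 (L p.1)) : p ∈ Bases d L := h

theorem to_bases' {y : N} {b : Fin d → Fin m → ℝ} (h : IsFr b (L y)) : (y, b) ∈ Bases d L := h

/-- the action on the pairs -/
def smp (g : Matrix (Fin d) (Fin d) ℤ) (p : N × (Fin d → Fin m → ℝ)) :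
    N × (Fin d → Fin m → ℝ) := (p.1, sm g p.2)

theorem smp_one (p : N × (Fin d → Fin m → ℝ)) : smp 1 p = p := Prod.ext rfl (sm_one _)

theorem smp_mul (g h : Matrix (Fin d) (Fin d) ℤ) (p : N × (Fin d → Fin m → ℝ)) :
    smp (g * h) p = smp g (smp h p) := Prod.ext rfl (sm_mul g h _)

theorem smp_mem (g : (Matrix (Fin d) (Fin d) ℤ)ˣ) {p : N × (Fin d → Fin m → ℝ)}
    (hp : p ∈ Bases d L) : smp (g : Matrix (Fin d) (Fin d) ℤ) p ∈ Bases d L :=
  to_bases' ((of_bases hp).sm g)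

attribute [irreducible] IsFr

end Pool.Agent.J4H42.CI
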