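import Mathlib

/-! Project CI (helper20), part COV: the smooth structure on a space with a local homeomorphism to a
manifold. -/

open scoped Topology ContDiff Manifold
open Set

set_option linter.all false

noncomputable section

namespace Pool.Agent.J4H42.CI

universe u

variable {E : Type*} [NormedAddCommGroup E] [NormedSpace ℝ E]
  {N : Type*} [TopologicalSpace N] [ChartedSpace E N]
  {C : Type*} [TopologicalSpace C] {q : C → N}

/-- sheets: local inverses of `q` -/
structure Sheets (q : C → N) where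
  sh : C → OpenPartialHomeomorph C N
  mem : ∀ p, p ∈ (sh p).source
  eq : ∀ p x, sh p x = q x

namespace Sheets

/-- the charts -/
@[reducible] def charted (E : Type*) [NormedAddCommGroup E] {N : Type*} [TopologicalSpace N]
    [ChartedSpace E N] {q : C → N} (S : Sheets q) : ChartedSpace E C where
  atlas := {e | ∃ p : C, e = (S.sh p) ≫ₕ chartAt E (q p)}
  chartAt p := (S.sh p) ≫ₕ chartAt E (q p)
  mem_chart_source p := by
    rw [OpenPartialHomeomorph.trans_source]
    refine ⟨S.mem p, ?_⟩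
    rw [mem_preimage, S.eq]
    exact mem_chart_source E (q p)
  chart_mem_atlas p := ⟨p, rfl⟩

theorem isManifold [IsManifold 𝓘(ℝ, E) ∞ N] (S : Sheets q) :
    letI := S.charted E
    IsManifold 𝓘(ℝ, E) ∞ C := by
  letI := S.charted E
  apply isManifold_of_contDiffOn
  rintro _ _ ⟨p, rfl⟩ ⟨p', rfl⟩
  have h1 : (chartAt E (q p)).symm ≫ₕ chartAt E (q p') ∈ contDiffGroupoid ∞ 𝓘(ℝ, E) :=
    (contDiffGroupoid ∞ 𝓘(ℝ, E)).compatible (chart_mem_atlas E _) (chart_mem_atlas E _)
  have h2 := (contMDiffOn_of_mem_contDiffGroupoid h1).contDiffOn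
  have h3 : ∀ z ∈ (((S.sh p) ≫ₕ chartAt E (q p)).symm ≫ₕ ((S.sh p') ≫ₕ chartAt E (q p'))).source,
      z ∈ ((chartAt E (q p)).symm ≫ₕ chartAt E (q p')).source ∧
      (((S.sh p) ≫ₕ chartAt E (q p)).symm ≫ₕ ((S.sh p') ≫ₕ chartAt E (q p'))) z =
        ((chartAt E (q p)).symm ≫ₕ chartAt E (q p')) z := by
    intro z hz
    simp only [OpenPartialHomeomorph.trans_source, OpenPartialHomeomorph.symm_source,
      OpenPartialHomeomorph.trans_target, mem_inter_iff, mem_preimage,
      OpenPartialHomeomorph.coe_trans_symm, Function.comp_apply] at hz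
    obtain ⟨⟨hz1, hz2⟩, hz3, hz4⟩ := hz
    have e1 : q ((S.sh p).symm ((chartAt E (q p)).symm z)) = (chartAt E (q p)).symm z := by
      rw [← S.eq p]
      exact (S.sh p).right_inv hz2
    rw [S.eq, e1] at hz4
    refine ⟨?_, ?_⟩
    · simp only [OpenPartialHomeomorph.trans_source, OpenPartialHomeomorph.symm_source,
        mem_inter_iff, mem_preimage]
      exact ⟨hz1, hz4⟩
    · simp only [OpenPartialHomeomorph.coe_trans, OpenPartialHomeomorph.coe_trans_symm,
        Function.comp_apply]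
      rw [S.eq, e1]
  refine (h2.mono fun z hz => ?_).congr fun z hz => ?_
  · exact (h3 _ hz.1).1
  · exact (h3 _ hz.1).2

variable [IsManifold 𝓘(ℝ, E) ∞ N] (S : Sheets q)

theorem smooth_q :
    letI := S.charted E
    ContMDiff 𝓘(ℝ, E) 𝓘(ℝ, E) ∞ q := by
  letI := S.charted E
  haveI := S.isManifold (E := E)
  intro c
  have hc : c ∈ (chartAt E c).source := mem_chart_source E c
  have hmap : ∀ x ∈ (chartAt E c).source, q x = (chartAt E (q c)).symm (chartAt E c x) := by
    intro x hx
    have hx' : x ∈ ((S.sh c) ≫ₕ chartAt E (q c)).source := hx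
    rw [OpenPartialHomeomorph.trans_source] at hx'
    have e1 : chartAt E c x = chartAt E (q c) (S.sh c x) := rfl
    have h2 := hx'.2
    rw [mem_preimage] at h2
    rw [e1, (chartAt E (q c)).left_inv h2, S.eq]
  have ht : chartAt E c c ∈ (chartAt E (q c)).target := by
    have e1 : chartAt E c c = chartAt E (q c) (S.sh c c) := rfl
    rw [e1, S.eq]
    exact mem_chart_target E (q c)
  have h1 : ContMDiffAt 𝓘(ℝ, E) 𝓘(ℝ, E) ∞ (chartAt E c) c :=
    (contMDiffOn_chart (I := 𝓘(ℝ, E)) (n := ∞)).contMDiffAt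
      ((chartAt E c).open_source.mem_nhds hc)
  have h2 : ContMDiffAt 𝓘(ℝ, E) 𝓘(ℝ, E) ∞ (chartAt E (q c)).symm (chartAt E c c) :=
    (contMDiffOn_chart_symm (I := 𝓘(ℝ, E)) (n := ∞)).contMDiffAt
      ((chartAt E (q c)).open_target.mem_nhds ht)
  refine (h2.comp c h1).congr_of_eventuallyEq ?_
  filter_upwards [(chartAt E c).open_source.mem_nhds hc] with x hx
  exact hmap x hx

theorem lift {EX : Type*} [NormedAddCommGroup EX] [NormedSpace ℝ EX] {X : Type*}
    [TopologicalSpace X] [ChartedSpace EX X] {f : X → C} {x : X} :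
    letI := S.charted E
    ContinuousAt f x → ContMDiffAt 𝓘(ℝ, EX) 𝓘(ℝ, E) ∞ (fun x => q (f x)) x →
    ContMDiffAt 𝓘(ℝ, EX) 𝓘(ℝ, E) ∞ f x := by
  letI := S.charted E
  haveI := S.isManifold (E := E)
  intro hf h
  set c := f x with hc
  have hcs : c ∈ (chartAt E c).source := mem_chart_source E c
  have hmap : ∀ y ∈ (chartAt E c).source, y = (chartAt E c).symm (chartAt E (q c) (q y)) := by
    intro y hy
    have e1 : chartAt E c y = chartAt E (q c) (S.sh c y) := rfl
    rw [← S.eq c y, ← e1, (chartAt E c).left_inv hy]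
  have e0 : chartAt E (q c) (q c) = chartAt E c c := by
    have e1 : chartAt E c c = chartAt E (q c) (S.sh c c) := rfl
    rw [e1, S.eq]
  have h1 : ContMDiffAt 𝓘(ℝ, E) 𝓘(ℝ, E) ∞ (chartAt E (q c)) (q c) :=
    (contMDiffOn_chart (I := 𝓘(ℝ, E)) (n := ∞)).contMDiffAt
      ((chartAt E (q c)).open_source.mem_nhds (mem_chart_source E (q c)))
  have h2 : ContMDiffAt 𝓘(ℝ, E) 𝓘(ℝ, E) ∞ (chartAt E c).symm (chartAt E (q c) (q c)) := by
    rw [e0]
    exact (contMDiffOn_chart_symm (I := 𝓘(ℝ, E)) (n := ∞)).contMDiffAt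
      ((chartAt E c).open_target.mem_nhds (mem_chart_target E c))
  have h3 : ContMDiffAt 𝓘(ℝ, E) 𝓘(ℝ, E) ∞
      (fun y => (chartAt E c).symm (chartAt E (q c) y)) (q c) := h2.comp (q c) h1
  have h4 : ContMDiffAt 𝓘(ℝ, EX) 𝓘(ℝ, E) ∞
      (fun x' => (chartAt E c).symm (chartAt E (q c) (q (f x')))) x :=
    ContMDiffAt.comp (g := fun y => (chartAt E c).symm (chartAt E (q c) y)) x h3 h
  refine h4.congr_of_eventuallyEq ?_
  filter_upwards [hf.preimage_mem_nhds ((chartAt E c).open_source.mem_nhds hcs)] with x' hx'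
  exact hmap _ hx'

theorem localDiffeo :
    letI := S.charted E
    IsLocalDiffeomorph 𝓘(ℝ, E) 𝓘(ℝ, E) ∞ q := by
  letI := S.charted E
  haveI := S.isManifold (E := E)
  intro c
  refine ⟨{ toPartialEquiv := (S.sh c).toPartialEquiv
            open_source := (S.sh c).open_source
            open_target := (S.sh c).open_target
            contMDiffOn_toFun := ?_
            contMDiffOn_invFun := ?_ }, S.mem c, ?_⟩
  · have h := (S.smooth_q (E := E)).contMDiffOn (s := (S.sh c).source)
    exact h.congr fun x _ => S.eq c x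
  · intro y hy
    have hc : ContinuousAt (S.sh c).symm y := (S.sh c).continuousAt_symm hy
    refine (S.lift (E := E) (x := y) hc ?_).contMDiffWithinAt
    refine (contMDiffAt_id (I := 𝓘(ℝ, E)) (n := ∞)).congr_of_eventuallyEq ?_
    filter_upwards [(S.sh c).open_target.mem_nhds hy] with y' hy'
    rw [← S.eq c]
    exact (S.sh c).right_inv hy'
  · intro x _
    exact (S.eq c x).symm

end Sheets

end Pool.Agent.J4H42.CI
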