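import Pool.Agent.J4H42.CI.CovA
import Pool.Agent.J4H42.CI.Sheet

/-! Project CI (helper20), part COV: the set of the frames is closed; the sheets. -/

open scoped Topology ContDiff Manifold Classical
open Set Metric

set_option linter.all false

noncomputable section

namespace Pool.Agent.J4H42.CI

open Pool.Agent.J4H20.CI

universe u v

attribute [local irreducible] Ph

variable {E : Type u} [NormedAddCommGroup E] [NormedSpace ℝ E]
  {N : Type v} [TopologicalSpace N] [ChartedSpace E N]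
  {d m : ℕ} {L : N → Set (Fin m → ℝ)}

/-- trivialising neighbourhoods -/
theorem frame0 (hL : LocBases E d L) (y₀ : N) :
    ∃ (U : Set N) (b : N → Fin d → Fin m → ℝ), IsOpen U ∧ y₀ ∈ U ∧
    ContMDiffOn 𝓘(ℝ, E) 𝓘(ℝ, Fin d → Fin m → ℝ) ∞ b U ∧
    ∀ y ∈ U, IsFr (b y) (L y) := by
  obtain ⟨U, b, hU, hyU, hb, hfr⟩ := hL y₀
  refine ⟨U, b, hU, hyU, hb, fun y hy => ?_⟩
  unfold IsFr
  exact hfr y hy

/-- connected trivialising neighbourhoods -/
theorem frame [FiniteDimensional ℝ E] (hL : LocBases E d L) (y₀ : N) :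
    ∃ (U : Set N) (b : N → Fin d → Fin m → ℝ), IsOpen U ∧ y₀ ∈ U ∧ IsConnected U ∧
    ContMDiffOn 𝓘(ℝ, E) 𝓘(ℝ, Fin d → Fin m → ℝ) ∞ b U ∧
    ∀ y ∈ U, IsFr (b y) (L y) := by
  obtain ⟨U, b, hU, hyU, hb, hfr⟩ := frame0 hL y₀
  haveI : LocallyConnectedSpace N := ChartedSpace.locallyConnectedSpace E N
  have hsub := connectedComponentIn_subset U y₀
  exact ⟨connectedComponentIn U y₀, b, hU.connectedComponentIn, mem_connectedComponentIn hyU,
    isConnected_connectedComponentIn_iff.2 hyU, hb.mono hsub, fun y hy => hfr y (hsub hy)⟩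

/-- a frame over a trivialising set -/
theorem fr_ex {U : Set N} {b : N → Fin d → Fin m → ℝ} (hfr : ∀ y ∈ U, IsFr (b y) (L y))
    {q : N × (Fin d → Fin m → ℝ)} (hq : q ∈ Bases d L) (hqU : q.1 ∈ U) :
    ∃ g : (Matrix (Fin d) (Fin d) ℤ)ˣ,
      q.2 = sm (g : Matrix (Fin d) (Fin d) ℤ) (b q.1) ∧
      Ph (b q.1) q.2 = fun i j => ((g : Matrix (Fin d) (Fin d) ℤ) i j : ℝ) := by
  obtain ⟨g, hg⟩ := (hfr _ hqU).ex (of_bases hq)
  refine ⟨g, hg, ?_⟩
  rw [hg]
  exact Ph_sm (hfr _ hqU).li _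

/-- the comparison map is continuous -/
theorem Ph_at1 {X : Type*} [TopologicalSpace X] {β v : X → Fin d → Fin m → ℝ} {x : X}
    (hb : ContinuousAt β x) (hv : ContinuousAt v x)
    (hli : LinearIndependent ℝ (β x)) :
    ContinuousAt (fun q : X => Ph (β q) (v q)) x := by
  have h3 := Ph_cont (v := v x) hli
  have h4 := h3.tendsto
  have hb2 : Filter.Tendsto (fun q : X => (β q, v q)) (𝓝 x) (𝓝 (β x, v x)) :=
    hb.prodMk hv
  have h5 := h4.comp hb2
  exact h5

theorem H_at {X : Type*} [TopologicalSpace X] {β v : X → Fin d → Fin m → ℝ}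
    {G : X → Fin d → Fin d → ℝ} {x : X}
    (hb : ContinuousAt β x) (hv : ContinuousAt v x) (hG : ContinuousAt G x) :
    ContinuousAt (fun q => (fun i => (∑ j, (G q i j) • β q j) - v q i : Fin d → Fin m → ℝ)) x := by
  rw [continuousAt_pi]
  intro i
  refine ContinuousAt.sub ?_ (continuousAt_pi.1 hv i)
  refine tendsto_finsetSum _ fun j _ => ?_
  have h1 : ContinuousAt (fun q => G q i j) x := continuousAt_pi.1 (continuousAt_pi.1 hG i) j
  have h2 : ContinuousAt (fun q => β q j) x := continuousAt_pi.1 hb j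
  exact ContinuousAt.smul h1 h2

theorem sm_of_Ph {β v : Fin d → Fin m → ℝ} {G : Fin d → Fin d → ℝ}
    {g : Matrix (Fin d) (Fin d) ℤ} (hG : G = fun i j => (g i j : ℝ))
    (h : (fun i => (∑ j, (G i j) • β j) - v i : Fin d → Fin m → ℝ) = 0) :
    v = sm g β := by
  subst hG
  funext i
  have h4 := congrFun h i
  exact (sub_eq_zero.1 h4).symm

theorem closed_bases (hL : LocBases E d L) : IsClosed (Bases d L) := by
  rw [← closure_subset_iff_isClosed]
  intro p hp
  obtain ⟨U, b, hU, hyU, hb, hfr⟩ := frame0 hL p.1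
  have hbc : ContinuousAt b p.1 := hb.continuousOn.continuousAt (hU.mem_nhds hyU)
  have hb1 : ContinuousAt (fun q : N × (Fin d → Fin m → ℝ) => b q.1) p :=
    ContinuousAt.comp (f := fun q : N × (Fin d → Fin m → ℝ) => q.1) hbc continuousAt_fst
  have hb2 : ContinuousAt (fun q : N × (Fin d → Fin m → ℝ) => q.2) p := continuousAt_snd
  have hG : ContinuousAt (fun q : N × (Fin d → Fin m → ℝ) => Ph (b q.1) q.2) p :=
    Ph_at1 hb1 hb2 (hfr _ hyU).li
  haveI : (𝓝[Bases d L] p).NeBot := mem_closure_iff_nhdsWithin_neBot.1 hp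
  have hUn : ∀ᶠ q in 𝓝[Bases d L] p, q ∈ Bases d L ∧ q.1 ∈ U := by
    refine eventually_nhdsWithin_iff.2 ?_
    filter_upwards [continuousAt_fst.preimage_mem_nhds (hU.mem_nhds hyU)] with q hq hq2
    exact ⟨hq2, hq⟩
  have hZ := isClosed_int (d := d)
    (Set.range fun g : (Matrix (Fin d) (Fin d) ℤ)ˣ => (g : Matrix (Fin d) (Fin d) ℤ))
  have h1 := hZ.mem_of_tendsto (hG.mono_left nhdsWithin_le_nhds) (by
    filter_upwards [hUn] with q hq
    obtain ⟨g, -, hg⟩ := fr_ex hfr hq.1 hq.2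
    exact ⟨(g : Matrix (Fin d) (Fin d) ℤ), ⟨g, rfl⟩, hg.symm⟩)
  obtain ⟨_, ⟨g, rfl⟩, hg⟩ := h1
  have hH := H_at hb1 hb2 hG
  have h2 := (isClosed_singleton (x := (0 : Fin d → Fin m → ℝ))).mem_of_tendsto
    (hH.mono_left nhdsWithin_le_nhds) (by
      filter_upwards [hUn] with q hq
      obtain ⟨g, hg1, hg2⟩ := fr_ex hfr hq.1 hq.2
      rw [mem_singleton_iff]
      funext i
      rw [hg2, hg1]
      exact sub_self _)
  have h3 : p.2 = sm (g : Matrix (Fin d) (Fin d) ℤ) (b p.1) :=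
    sm_of_Ph (G := Ph (b p.1) p.2) hg.symm (mem_singleton_iff.1 h2)
  apply to_bases
  rw [h3]
  exact (hfr _ hyU).sm g

/-- a section through a point of the component stays in the component -/
theorem sec_mem {U : Set N} {b : N → Fin d → Fin m → ℝ} (hUc : IsConnected U)
    (hb : ContinuousOn b U) (hfr : ∀ y ∈ U, IsFr (b y) (L y))
    (g : (Matrix (Fin d) (Fin d) ℤ)ˣ) {p₀ : N × (Fin d → Fin m → ℝ)} {y₁ : N} (hy₁ : y₁ ∈ U)
    (h₁ : (y₁, sm (g : Matrix (Fin d) (Fin d) ℤ) (b y₁)) ∈ connectedComponentIn (Bases d L) p₀)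
    {y : N} (hy : y ∈ U) :
    (y, sm (g : Matrix (Fin d) (Fin d) ℤ) (b y)) ∈ connectedComponentIn (Bases d L) p₀ := by
  have hc : ContinuousOn (fun y : N => (y, sm (g : Matrix (Fin d) (Fin d) ℤ) (b y))) U :=
    continuousOn_id.prodMk ((sm_contDiff (g : Matrix (Fin d) (Fin d) ℤ)).continuous.comp_continuousOn
      hb)
  have h2 := (hUc.image _ hc).isPreconnected
  rw [connectedComponentIn_eq h₁]
  refine h2.subset_connectedComponentIn ⟨y₁, hy₁, rfl⟩ ?_ ⟨y, hy, rfl⟩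
  rintro _ ⟨z, hz, rfl⟩
  exact to_bases' ((hfr z hz).sm g)

theorem smp_cont (g : Matrix (Fin d) (Fin d) ℤ) :
    Continuous (smp g : N × (Fin d → Fin m → ℝ) → _) :=
  continuous_fst.prodMk ((sm_contDiff g).continuous.comp continuous_snd)

/-- if a matrix maps one point of the component into the component, then all points -/
theorem smp_comp (g : (Matrix (Fin d) (Fin d) ℤ)ˣ) {p₀ x : N × (Fin d → Fin m → ℝ)}
    (hx : x ∈ connectedComponentIn (Bases d L) p₀)
    (hgx : smp (g : Matrix (Fin d) (Fin d) ℤ) x ∈ connectedComponentIn (Bases d L) p₀)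
    {y : N × (Fin d → Fin m → ℝ)} (hy : y ∈ connectedComponentIn (Bases d L) p₀) :
    smp (g : Matrix (Fin d) (Fin d) ℤ) y ∈ connectedComponentIn (Bases d L) p₀ := by
  have h1 : IsPreconnected ((smp (g : Matrix (Fin d) (Fin d) ℤ)) ''
      connectedComponentIn (Bases d L) p₀) :=
    isPreconnected_connectedComponentIn.image _ (smp_cont _).continuousOn
  rw [connectedComponentIn_eq hgx]
  refine h1.subset_connectedComponentIn ⟨x, hx, rfl⟩ ?_ ⟨y, hy, rfl⟩
  rintro _ ⟨z, hz, rfl⟩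
  exact smp_mem g (connectedComponentIn_subset _ _ hz)

theorem smp_comp_inv (g : (Matrix (Fin d) (Fin d) ℤ)ˣ) {p₀ x : N × (Fin d → Fin m → ℝ)}
    (hx : x ∈ connectedComponentIn (Bases d L) p₀)
    (hgx : smp (g : Matrix (Fin d) (Fin d) ℤ) x ∈ connectedComponentIn (Bases d L) p₀)
    {y : N × (Fin d → Fin m → ℝ)} (hy : y ∈ connectedComponentIn (Bases d L) p₀) :
    smp ((g⁻¹ : (Matrix (Fin d) (Fin d) ℤ)ˣ) : Matrix (Fin d) (Fin d) ℤ) y ∈
      connectedComponentIn (Bases d L) p₀ := by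
  refine smp_comp g⁻¹ hgx ?_ hy
  rw [← smp_mul, Units.inv_mul, smp_one]
  exact hx

/-- the stabiliser of the component -/
def Gam (L : N → Set (Fin m → ℝ)) (p₀ : N × (Fin d → Fin m → ℝ)) :
    Subgroup (Matrix (Fin d) (Fin d) ℤ)ˣ where
  carrier := {g | (∀ x ∈ connectedComponentIn (Bases d L) p₀,
      smp (g : Matrix (Fin d) (Fin d) ℤ) x ∈ connectedComponentIn (Bases d L) p₀) ∧
    ∀ x ∈ connectedComponentIn (Bases d L) p₀,
      smp ((g⁻¹ : (Matrix (Fin d) (Fin d) ℤ)ˣ) : Matrix (Fin d) (Fin d) ℤ) x ∈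
        connectedComponentIn (Bases d L) p₀}
  one_mem' := by
    refine ⟨fun x hx => ?_, fun x hx => ?_⟩
    · rw [Units.val_one, smp_one]
      exact hx
    · rw [inv_one, Units.val_one, smp_one]
      exact hx
  mul_mem' := by
    rintro g h ⟨h1, h2⟩ ⟨h3, h4⟩
    refine ⟨fun x hx => ?_, fun x hx => ?_⟩
    · rw [Units.val_mul, smp_mul]
      exact h1 _ (h3 _ hx)
    · rw [mul_inv_rev, Units.val_mul, smp_mul]
      exact h4 _ (h2 _ hx)
  inv_mem' := by
    rintro g ⟨h1, h2⟩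
    exact ⟨h2, by rw [inv_inv]; exact h1⟩

/-- the action of the stabiliser -/
@[reducible] def gamAct (L : N → Set (Fin m → ℝ)) (p₀ : N × (Fin d → Fin m → ℝ)) :
    MulAction (Gam L p₀) (connectedComponentIn (Bases d L) p₀) where
  smul g x := ⟨smp ((g : (Matrix (Fin d) (Fin d) ℤ)ˣ) : Matrix (Fin d) (Fin d) ℤ) x.1,
    g.2.1 _ x.2⟩
  one_smul x := Subtype.ext (by
    show smp _ x.1 = x.1
    rw [OneMemClass.coe_one, Units.val_one, smp_one])
  mul_smul g h x := Subtype.ext (by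
    show smp _ x.1 = smp _ (smp _ x.1)
    rw [Subgroup.coe_mul, Units.val_mul, smp_mul])

end Pool.Agent.J4H42.CI
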