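import Pool.Agent.J4H42.CI.CovB

/-! Project CI (helper20), part COV: the sheets of a component. -/

open scoped Topology ContDiff Manifold Classical
open Set Metric

set_option linter.all false

noncomputable section

namespace Pool.Agent.J4H42.CI

open Pool.Agent.J4H20.CI

universe u v

attribute [local irreducible] Ph

variable {E : Type u} [NormedAddCommGroup E] [NormedSpace ℝ E]
  {N : Type v} [TopologicalSpace N] [ChartedSpace E N]
  {d m : ℕ} {L : N → Set (Fin m → ℝ)}

/-- the sheet is open -/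
theorem sheet_open {U : Set N} {b : N → Fin d → Fin m → ℝ} (hU : IsOpen U)
    (hb : ContinuousOn b U) (hfr : ∀ y ∈ U, IsFr (b y) (L y))
    (g : (Matrix (Fin d) (Fin d) ℤ)ˣ) (p₀ : N × (Fin d → Fin m → ℝ)) :
    IsOpen {x : connectedComponentIn (Bases d L) p₀ | x.1.1 ∈ U ∧
      x.1.2 = sm (g : Matrix (Fin d) (Fin d) ℤ) (b x.1.1)} := by
  rw [isOpen_iff_mem_nhds]
  rintro x ⟨hx1, hx2⟩
  have hbc : ContinuousAt b x.1.1 := hb.continuousAt (hU.mem_nhds hx1)
  have hf1 : ContinuousAt (fun x : connectedComponentIn (Bases d L) p₀ => x.1.1) x :=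
    (continuous_fst.comp continuous_subtype_val).continuousAt
  have hf2 : ContinuousAt (fun x : connectedComponentIn (Bases d L) p₀ => x.1.2) x :=
    (continuous_snd.comp continuous_subtype_val).continuousAt
  have hb1 : ContinuousAt (fun x : connectedComponentIn (Bases d L) p₀ => b x.1.1) x :=
    ContinuousAt.comp (f := fun x : connectedComponentIn (Bases d L) p₀ => x.1.1) hbc hf1
  have hG : ContinuousAt (fun x : connectedComponentIn (Bases d L) p₀ =>
      Ph (b x.1.1) x.1.2) x := Ph_at1 hb1 hf2 (hfr _ hx1).li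
  have e1 : Ph (b x.1.1) x.1.2 =
      fun i j => ((g : Matrix (Fin d) (Fin d) ℤ) i j : ℝ) := by
    rw [hx2]
    exact Ph_sm (hfr _ hx1).li _
  have hn := Metric.tendsto_nhds.1 hG 1 one_pos
  filter_upwards [hf1.preimage_mem_nhds (hU.mem_nhds hx1), hn] with x' h3 h4
  refine ⟨h3, ?_⟩
  obtain ⟨g', hg', e2⟩ := fr_ex hfr (connectedComponentIn_subset _ _ x'.2) h3
  rw [e1, e2] at h4
  rw [hg', dist_int h4]

/-- the inverse of the projection on a sheet -/
def secMap {U : Set N} {b : N → Fin d → Fin m → ℝ}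
    (g : (Matrix (Fin d) (Fin d) ℤ)ˣ) {p₀ : N × (Fin d → Fin m → ℝ)}
    (p : connectedComponentIn (Bases d L) p₀)
    (hsec : ∀ y ∈ U, (y, sm (g : Matrix (Fin d) (Fin d) ℤ) (b y)) ∈
      connectedComponentIn (Bases d L) p₀) (y : N) : connectedComponentIn (Bases d L) p₀ :=
  if h : y ∈ U then ⟨(y, sm (g : Matrix (Fin d) (Fin d) ℤ) (b y)), hsec y h⟩ else p

theorem secMap_eq {U : Set N} {b : N → Fin d → Fin m → ℝ}
    (g : (Matrix (Fin d) (Fin d) ℤ)ˣ) {p₀ : N × (Fin d → Fin m → ℝ)}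
    (p : connectedComponentIn (Bases d L) p₀)
    (hsec : ∀ y ∈ U, (y, sm (g : Matrix (Fin d) (Fin d) ℤ) (b y)) ∈
      connectedComponentIn (Bases d L) p₀) {y : N} (hy : y ∈ U) :
    (secMap g p hsec y).1 = (y, sm (g : Matrix (Fin d) (Fin d) ℤ) (b y)) := by
  unfold secMap
  rw [dif_pos hy]

/-- the sheet as a partial homeomorphism -/
def sheetHomeo {U : Set N} {b : N → Fin d → Fin m → ℝ} (hU : IsOpen U)
    (hb : ContinuousOn b U) (hfr : ∀ y ∈ U, IsFr (b y) (L y))
    (g : (Matrix (Fin d) (Fin d) ℤ)ˣ) (p₀ : N × (Fin d → Fin m → ℝ))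
    (p : connectedComponentIn (Bases d L) p₀)
    (hsec : ∀ y ∈ U, (y, sm (g : Matrix (Fin d) (Fin d) ℤ) (b y)) ∈
      connectedComponentIn (Bases d L) p₀) :
    OpenPartialHomeomorph (connectedComponentIn (Bases d L) p₀) N where
  toFun := fun x => x.1.1
  invFun := secMap g p hsec
  source := {x | x.1.1 ∈ U ∧ x.1.2 = sm (g : Matrix (Fin d) (Fin d) ℤ) (b x.1.1)}
  target := U
  map_source' := fun x hx => hx.1
  map_target' := by
    intro y hy
    rw [mem_setOf_eq, secMap_eq g p hsec hy]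
    exact ⟨hy, rfl⟩
  left_inv' := by
    intro x hx
    obtain ⟨h1, h2⟩ := hx
    apply Subtype.ext
    rw [secMap_eq g p hsec h1]
    exact Prod.ext rfl h2.symm
  right_inv' := by
    intro y hy
    rw [secMap_eq g p hsec hy]
  open_source := sheet_open hU hb hfr g p₀
  open_target := hU
  continuousOn_toFun := (continuous_fst.comp continuous_subtype_val).continuousOn
  continuousOn_invFun := by
    rw [Topology.IsInducing.subtypeVal.continuousOn_iff]
    have hc : ContinuousOn (fun y : N => (y, sm (g : Matrix (Fin d) (Fin d) ℤ) (b y))) U :=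
      continuousOn_id.prodMk ((sm_contDiff
        (g : Matrix (Fin d) (Fin d) ℤ)).continuous.comp_continuousOn hb)
    refine hc.congr ?_
    intro y hy
    rw [Function.comp_apply, secMap_eq g p hsec hy]

theorem exists_sheet [FiniteDimensional ℝ E] (hL : LocBases E d L)
    (p₀ : N × (Fin d → Fin m → ℝ)) (p : connectedComponentIn (Bases d L) p₀) :
    ∃ (e : OpenPartialHomeomorph (connectedComponentIn (Bases d L) p₀) N)
      (b : N → Fin d → Fin m → ℝ) (g : Matrix (Fin d) (Fin d) ℤ),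
      p ∈ e.source ∧ (∀ x, e x = x.1.1) ∧
      ContMDiffOn 𝓘(ℝ, E) 𝓘(ℝ, Fin d → Fin m → ℝ) ∞ b e.target ∧
      ∀ x ∈ e.source, x.1.2 = sm g (b x.1.1) := by
  obtain ⟨U, b, hU, hyU, hUc, hb, hfr⟩ := frame hL p.1.1
  obtain ⟨g, hg, -⟩ := fr_ex hfr (connectedComponentIn_subset _ _ p.2) hyU
  have hp1 : (p.1.1, sm (g : Matrix (Fin d) (Fin d) ℤ) (b p.1.1)) ∈
      connectedComponentIn (Bases d L) p₀ := by
    rw [← hg]
    exact p.2
  have hsec : ∀ y ∈ U, (y, sm (g : Matrix (Fin d) (Fin d) ℤ) (b y)) ∈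
      connectedComponentIn (Bases d L) p₀ :=
    fun y hy => sec_mem hUc hb.continuousOn hfr g hyU hp1 hy
  exact ⟨sheetHomeo hU hb.continuousOn hfr g p₀ p hsec, b, g, ⟨hyU, hg⟩, fun x => rfl, hb,
    fun x hx => hx.2⟩

/-- the sheets of the component -/
def sheets [FiniteDimensional ℝ E] (hL : LocBases E d L) (p₀ : N × (Fin d → Fin m → ℝ)) :
    Sheets (fun p : connectedComponentIn (Bases d L) p₀ => (p : N × (Fin d → Fin m → ℝ)).1) where
  sh p := (exists_sheet hL p₀ p).choose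
  mem p := (exists_sheet hL p₀ p).choose_spec.choose_spec.choose_spec.1
  eq p x := (exists_sheet hL p₀ p).choose_spec.choose_spec.choose_spec.2.1 x

theorem sheets_fr [FiniteDimensional ℝ E] (hL : LocBases E d L) (p₀ : N × (Fin d → Fin m → ℝ))
    (p : connectedComponentIn (Bases d L) p₀) :
    ∃ (b : N → Fin d → Fin m → ℝ) (g : Matrix (Fin d) (Fin d) ℤ),
      ContMDiffOn 𝓘(ℝ, E) 𝓘(ℝ, Fin d → Fin m → ℝ) ∞ b ((sheets hL p₀).sh p).target ∧
      ∀ x ∈ ((sheets hL p₀).sh p).source, x.1.2 = sm g (b x.1.1) := by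
  obtain ⟨b, g, -, -, h1, h2⟩ := (exists_sheet hL p₀ p).choose_spec
  exact ⟨b, g, h1, h2⟩

end Pool.Agent.J4H42.CI
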