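import Pool.Agent.J4H42.CI.CovC

/-! Project CI (helper20), part COV: the covering of the bases of a family of lattices. -/

open scoped Topology ContDiff Manifold Classical
open Set Metric

set_option linter.all false

noncomputable section

namespace Pool.Agent.J4H42.CI

open Pool.Agent.J4H20.CI

universe u v

variable {E : Type u} [NormedAddCommGroup E] [NormedSpace ℝ E] [FiniteDimensional ℝ E]
  {N : Type v} [TopologicalSpace N] [ChartedSpace E N]
  {d m : ℕ} {L : N → Set (Fin m → ℝ)}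

/-- the projection of a component to a connected base is surjective -/
theorem surj [ConnectedSpace N] (hL : LocBases E d L) (p₀ : N × (Fin d → Fin m → ℝ))
    (hp₀ : p₀ ∈ Bases d L) :
    Function.Surjective
      (fun p : connectedComponentIn (Bases d L) p₀ => (p : N × (Fin d → Fin m → ℝ)).1) := by
  have hopen : IsOpen (Set.range
      fun p : connectedComponentIn (Bases d L) p₀ => (p : N × (Fin d → Fin m → ℝ)).1) := by
    rw [isOpen_iff_mem_nhds]
    rintro _ ⟨p, rfl⟩
    have h1 := ((sheets hL p₀).sh p).open_target.mem_nhds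
      (((sheets hL p₀).sh p).map_source ((sheets hL p₀).mem p))
    rw [(sheets hL p₀).eq] at h1
    filter_upwards [h1] with y hy
    refine ⟨((sheets hL p₀).sh p).symm y, ?_⟩
    exact ((sheets hL p₀).eq p _).symm.trans (((sheets hL p₀).sh p).right_inv hy)
  have hclosed : IsClosed (Set.range
      fun p : connectedComponentIn (Bases d L) p₀ => (p : N × (Fin d → Fin m → ℝ)).1) := by
    rw [← closure_subset_iff_isClosed]
    intro y hy
    obtain ⟨U, b, hU, hyU, hUc, hb, hfr⟩ := frame hL y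
    obtain ⟨_, hxU, ⟨x, rfl⟩⟩ := mem_closure_iff.1 hy U hU hyU
    obtain ⟨g, hg, -⟩ := fr_ex hfr (connectedComponentIn_subset _ _ x.2) hxU
    have h1 : (x.1.1, sm (g : Matrix (Fin d) (Fin d) ℤ) (b x.1.1)) ∈
        connectedComponentIn (Bases d L) p₀ := by
      rw [← hg]
      exact x.2
    exact ⟨⟨_, sec_mem hUc hb.continuousOn hfr g hxU h1 hyU⟩, rfl⟩
  have hne : (Set.range
      fun p : connectedComponentIn (Bases d L) p₀ =>
        (p : N × (Fin d → Fin m → ℝ)).1).Nonempty :=
    ⟨_, ⟨⟨p₀, mem_connectedComponentIn hp₀⟩, rfl⟩⟩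
  exact range_eq_univ.1 (IsClopen.eq_univ ⟨hclosed, hopen⟩ hne)

theorem smooth_act [IsManifold 𝓘(ℝ, E) ∞ N] (hL : LocBases E d L)
    (p₀ : N × (Fin d → Fin m → ℝ)) (γ : Gam L p₀) :
    letI := (sheets hL p₀).charted E
    letI := gamAct L p₀
    ContMDiff 𝓘(ℝ, E) 𝓘(ℝ, E) ∞ (fun x : connectedComponentIn (Bases d L) p₀ => γ • x) := by
  letI := (sheets hL p₀).charted E
  haveI := (sheets hL p₀).isManifold (E := E)
  letI := gamAct L p₀
  intro x
  refine (sheets hL p₀).lift (E := E) ?_ ((sheets hL p₀).smooth_q (E := E) x)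
  refine Continuous.continuousAt ?_
  exact Continuous.subtype_mk ((smp_cont _).comp continuous_subtype_val) _

theorem fibres (p₀ : N × (Fin d → Fin m → ℝ)) (x y : connectedComponentIn (Bases d L) p₀) :
    letI := gamAct L p₀
    x.1.1 = y.1.1 ↔ ∃ γ : Gam L p₀, γ • x = y := by
  letI := gamAct L p₀
  constructor
  · intro hxy
    have hxB := of_bases (connectedComponentIn_subset _ _ x.2)
    have hyB := of_bases (connectedComponentIn_subset _ _ y.2)
    rw [← hxy] at hyB
    obtain ⟨g, hg⟩ := hxB.ex hyB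
    have e1 : smp (g : Matrix (Fin d) (Fin d) ℤ) x.1 = y.1 := Prod.ext hxy hg.symm
    have hgx : smp (g : Matrix (Fin d) (Fin d) ℤ) x.1 ∈ connectedComponentIn (Bases d L) p₀ := by
      rw [e1]
      exact y.2
    refine ⟨⟨g, fun z hz => smp_comp g x.2 hgx hz, fun z hz => smp_comp_inv g x.2 hgx hz⟩, ?_⟩
    exact Subtype.ext e1
  · rintro ⟨γ, rfl⟩
    rfl

theorem smooth_fr [IsManifold 𝓘(ℝ, E) ∞ N] (hL : LocBases E d L)
    (p₀ : N × (Fin d → Fin m → ℝ)) :
    letI := (sheets hL p₀).charted E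
    ContMDiff 𝓘(ℝ, E) 𝓘(ℝ, Fin d → Fin m → ℝ) ∞
        (fun p : connectedComponentIn (Bases d L) p₀ => (p : N × (Fin d → Fin m → ℝ)).2) := by
  letI := (sheets hL p₀).charted E
  haveI := (sheets hL p₀).isManifold (E := E)
  intro p
  obtain ⟨b, g, hb, hfr⟩ := sheets_fr hL p₀ p
  have hsrc : p ∈ ((sheets hL p₀).sh p).source := (sheets hL p₀).mem p
  have h1 : ContMDiffAt 𝓘(ℝ, E) 𝓘(ℝ, Fin d → Fin m → ℝ) ∞ b p.1.1 := by
    refine hb.contMDiffAt (((sheets hL p₀).sh p).open_target.mem_nhds ?_)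
    have h := ((sheets hL p₀).sh p).map_source hsrc
    rw [(sheets hL p₀).eq] at h
    exact h
  have h2 : ContMDiffAt 𝓘(ℝ, E) 𝓘(ℝ, Fin d → Fin m → ℝ) ∞
      (fun x : connectedComponentIn (Bases d L) p₀ => b x.1.1) p :=
    ContMDiffAt.comp (f := fun x : connectedComponentIn (Bases d L) p₀ => x.1.1) p h1
      ((sheets hL p₀).smooth_q (E := E) p)
  have h3 : ContMDiffAt 𝓘(ℝ, E) 𝓘(ℝ, Fin d → Fin m → ℝ) ∞
      (fun x : connectedComponentIn (Bases d L) p₀ => sm g (b x.1.1)) p :=
    ContMDiffAt.comp (g := fun v : Fin d → Fin m → ℝ => sm g v) p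
      (sm_contDiff g).contMDiff.contMDiffAt h2
  refine h3.congr_of_eventuallyEq ?_
  filter_upwards [((sheets hL p₀).sh p).open_source.mem_nhds hsrc] with x hx
  exact hfr x hx

theorem t_COV : S_COV.{u, v} := by
  intro E _ _ _ N _ _ _ _ _ _ d m L hL p₀ hp₀
  have hcl : IsClosed (connectedComponentIn (Bases d L) p₀) := by
    rw [connectedComponentIn_eq_image hp₀]
    exact (closed_bases hL).isClosedEmbedding_subtypeVal.isClosedMap _ isClosed_connectedComponent
  have hsig : SigmaCompactSpace (connectedComponentIn (Bases d L) p₀) := by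
    exact hcl.isClosedEmbedding_subtypeVal.sigmaCompactSpace
  have hcon : ConnectedSpace (connectedComponentIn (Bases d L) p₀) :=
    isConnected_iff_connectedSpace.1 (isConnected_connectedComponentIn_iff.2 hp₀)
  letI := (sheets hL p₀).charted E
  haveI := (sheets hL p₀).isManifold (E := E)
  letI := gamAct L p₀
  refine ⟨(sheets hL p₀).charted E, (sheets hL p₀).isManifold (E := E), hsig, hcon, Gam L p₀,
    inferInstance, gamAct L p₀, ?_, ?_, ?_⟩
  · exact ⟨surj hL p₀ hp₀, (sheets hL p₀).localDiffeo, smooth_act hL p₀, fibres p₀⟩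
  · exact smooth_fr hL p₀
  · intro γ
    exact ⟨((γ : (Matrix (Fin d) (Fin d) ℤ)ˣ) : Matrix (Fin d) (Fin d) ℤ), fun p i => rfl⟩

end Pool.Agent.J4H42.CI
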