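import Mathlib

/-! Project CI (helper20), part COV: integral changes of frames. -/

open scoped Topology ContDiff Matrix
open Set Metric

set_option linter.all false

noncomputable section

namespace Pool.Agent.J4H42.CI

variable {d m : ℕ}

/-- an integral matrix acts on the frames -/
def sm (g : Matrix (Fin d) (Fin d) ℤ) (v : Fin d → Fin m → ℝ) : Fin d → Fin m → ℝ :=
  fun i => ∑ j, (g i j : ℝ) • v j

theorem sm_one (v : Fin d → Fin m → ℝ) : sm 1 v = v := by
  funext i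
  unfold sm
  rw [Finset.sum_eq_single i]
  · simp
  · intro j _ hj
    rw [Matrix.one_apply_ne (Ne.symm hj)]
    simp
  · intro h
    exact absurd (Finset.mem_univ _) h

theorem sm_mul (g h : Matrix (Fin d) (Fin d) ℤ) (v : Fin d → Fin m → ℝ) :
    sm (g * h) v = sm g (sm h v) := by
  funext i
  unfold sm
  simp only [Finset.smul_sum, smul_smul]
  rw [Finset.sum_comm]
  refine Finset.sum_congr rfl fun j _ => ?_
  rw [Matrix.mul_apply]
  push_cast
  rw [Finset.sum_smul]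

theorem lin_sm (n : Fin d → ℝ) (g : Matrix (Fin d) (Fin d) ℤ) (v : Fin d → Fin m → ℝ) :
    ∑ i, n i • sm g v i = ∑ j, (∑ i, n i * g i j) • v j := by
  unfold sm
  simp only [Finset.smul_sum, smul_smul]
  rw [Finset.sum_comm]
  refine Finset.sum_congr rfl fun j _ => ?_
  rw [Finset.sum_smul]

theorem sm_contDiff (g : Matrix (Fin d) (Fin d) ℤ) :
    ContDiff ℝ ∞ (fun v : Fin d → Fin m → ℝ => sm g v) := by
  unfold sm
  rw [contDiff_pi]
  intro i
  refine ContDiff.sum fun j _ => ?_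
  exact (contDiff_apply ℝ (Fin m → ℝ) j).const_smul _

theorem sm_inj {b : Fin d → Fin m → ℝ} (hb : LinearIndependent ℝ b)
    {g h : Matrix (Fin d) (Fin d) ℤ} (e : sm g b = sm h b) : g = h := by
  ext i j
  have e1 := congrFun e i
  unfold sm at e1
  rw [← sub_eq_zero, ← Finset.sum_sub_distrib] at e1
  have e2 : ∑ j, ((g i j : ℝ) - (h i j : ℝ)) • b j = 0 := by
    rw [← e1]
    exact Finset.sum_congr rfl fun j _ => sub_smul _ _ _
  have e3 := Fintype.linearIndependent_iff.1 hb _ e2 j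
  exact_mod_cast sub_eq_zero.1 e3

theorem lin_sm_unit {b : Fin d → Fin m → ℝ} (hb : LinearIndependent ℝ b)
    (g : (Matrix (Fin d) (Fin d) ℤ)ˣ) : LinearIndependent ℝ (sm (g : Matrix _ _ ℤ) b) := by
  rw [Fintype.linearIndependent_iff]
  intro c hc i
  rw [lin_sm] at hc
  have h1 := Fintype.linearIndependent_iff.1 hb _ hc
  have h2 : ∀ k, ∑ j, (∑ i, c i * ((g : Matrix (Fin d) (Fin d) ℤ) i j : ℝ)) *
      (((g⁻¹ : (Matrix (Fin d) (Fin d) ℤ)ˣ) : Matrix (Fin d) (Fin d) ℤ) j k : ℝ) = c k := by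
    intro k
    simp only [Finset.sum_mul]
    rw [Finset.sum_comm]
    have h3 : ∀ i, ∑ j, c i * ((g : Matrix (Fin d) (Fin d) ℤ) i j : ℝ) *
        (((g⁻¹ : (Matrix (Fin d) (Fin d) ℤ)ˣ) : Matrix (Fin d) (Fin d) ℤ) j k : ℝ) =
        c i * ((1 : Matrix (Fin d) (Fin d) ℤ) i k : ℝ) := by
      intro i
      have h4 : ((g : Matrix (Fin d) (Fin d) ℤ) *
          ((g⁻¹ : (Matrix (Fin d) (Fin d) ℤ)ˣ) : Matrix (Fin d) (Fin d) ℤ)) i k =
          (1 : Matrix (Fin d) (Fin d) ℤ) i k := by rw [Units.mul_inv]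
      rw [← h4, Matrix.mul_apply]
      push_cast
      rw [Finset.mul_sum]
      exact Finset.sum_congr rfl fun j _ => by ring
    rw [Finset.sum_congr rfl fun i _ => h3 i, Finset.sum_eq_single k]
    · simp
    · intro i _ hi
      rw [Matrix.one_apply_ne hi]
      simp
    · intro h
      exact absurd (Finset.mem_univ _) h
  rw [← h2 i]
  exact Finset.sum_eq_zero fun j _ => by rw [h1 j, zero_mul]

/-- Two frames of the same lattice. -/
theorem basis_iff {b : Fin d → Fin m → ℝ} {L : Set (Fin m → ℝ)} (hb : LinearIndependent ℝ b)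
    (hL : ∀ s, s ∈ L ↔ ∃ n : Fin d → ℤ, s = ∑ i, (n i : ℝ) • b i) (v : Fin d → Fin m → ℝ) :
    (LinearIndependent ℝ v ∧ ∀ s, s ∈ L ↔ ∃ n : Fin d → ℤ, s = ∑ i, (n i : ℝ) • v i) ↔
      ∃ g : (Matrix (Fin d) (Fin d) ℤ)ˣ, v = sm (g : Matrix _ _ ℤ) b := by
  constructor
  · rintro ⟨hv, hLv⟩
    have key : ∀ {v b : Fin d → Fin m → ℝ},
        (∀ s, s ∈ L ↔ ∃ n : Fin d → ℤ, s = ∑ i, (n i : ℝ) • b i) →
        (∀ s, s ∈ L ↔ ∃ n : Fin d → ℤ, s = ∑ i, (n i : ℝ) • v i) →
        ∃ g : Matrix (Fin d) (Fin d) ℤ, v = sm g b := by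
      intro v b h1 h2
      have h3 : ∀ i, v i ∈ L := by
        intro i
        rw [h2]
        refine ⟨Pi.single i 1, ?_⟩
        rw [Finset.sum_eq_single i]
        · simp
        · intro j _ hj
          rw [Pi.single_eq_of_ne hj]
          simp
        · intro h
          exact absurd (Finset.mem_univ _) h
      have h4 : ∀ i, ∃ n : Fin d → ℤ, v i = ∑ j, (n j : ℝ) • b j := fun i => (h1 _).1 (h3 i)
      choose g hg using h4
      exact ⟨g, funext hg⟩
    obtain ⟨g, hg⟩ := key hL hLv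
    obtain ⟨h, hh⟩ := key hLv hL
    refine ⟨⟨g, h, ?_, ?_⟩, hg⟩
    · apply sm_inj hv
      rw [sm_mul, sm_one, ← hh, ← hg]
    · apply sm_inj hb
      rw [sm_mul, sm_one, ← hg, ← hh]
  · rintro ⟨g, rfl⟩
    refine ⟨lin_sm_unit hb g, fun s => ?_⟩
    rw [hL]
    constructor
    · rintro ⟨n, rfl⟩
      refine ⟨fun j => ∑ i, n i *
        ((g⁻¹ : (Matrix (Fin d) (Fin d) ℤ)ˣ) : Matrix (Fin d) (Fin d) ℤ) i j, ?_⟩
      have h1 : b = sm ((g⁻¹ : (Matrix (Fin d) (Fin d) ℤ)ˣ) : Matrix (Fin d) (Fin d) ℤ)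
          (sm (g : Matrix _ _ ℤ) b) := by rw [← sm_mul, Units.inv_mul, sm_one]
      conv_lhs => rw [h1]
      rw [lin_sm (fun i => (n i : ℝ))]
      refine Finset.sum_congr rfl fun j _ => ?_
      push_cast
      rfl
    · rintro ⟨n, rfl⟩
      refine ⟨fun j => ∑ i, n i * (g : Matrix (Fin d) (Fin d) ℤ) i j, ?_⟩
      rw [lin_sm (fun i => (n i : ℝ))]
      refine Finset.sum_congr rfl fun j _ => ?_
      push_cast
      rfl

/-- the coordinates of the frame `v` in the frame `b` -/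
def PhM (b v : Matrix (Fin d) (Fin m) ℝ) : Matrix (Fin d) (Fin d) ℝ :=
  v * b.transpose * (b * b.transpose)⁻¹

/-- the coordinates of the frame `v` in the frame `b` -/
def Ph (b v : Fin d → Fin m → ℝ) : Fin d → Fin d → ℝ := PhM (Matrix.of b) (Matrix.of v)

theorem gram_det {b : Matrix (Fin d) (Fin m) ℝ} (hb : LinearIndependent ℝ b.row) :
    (b * b.transpose).det ≠ 0 := by
  have h1 : b.rank = Fintype.card (Fin d) := LinearIndependent.rank_matrix hb
  have h2 := Matrix.rank_self_mul_transpose b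
  rw [h1] at h2
  rw [← isUnit_iff_ne_zero, ← Matrix.isUnit_iff_isUnit_det,
    ← Matrix.linearIndependent_rows_iff_isUnit,
    linearIndependent_iff_card_eq_finrank_span, ← h2, Matrix.rank_eq_finrank_span_row]
  rfl

theorem Ph_sm {b : Fin d → Fin m → ℝ} (hb : LinearIndependent ℝ b)
    (g : Matrix (Fin d) (Fin d) ℤ) : Ph b (sm g b) = fun i j => (g i j : ℝ) := by
  have h1 : Matrix.of (sm g b) = g.map (fun x : ℤ => (x : ℝ)) * Matrix.of b := by
    ext i k
    rw [Matrix.mul_apply]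
    simp only [sm, Finset.sum_apply, Pi.smul_apply, smul_eq_mul, Matrix.map_apply,
      Matrix.of_apply]
  have h2 : PhM (Matrix.of b) (Matrix.of (sm g b)) = g.map (fun x : ℤ => (x : ℝ)) := by
    unfold PhM
    rw [h1, Matrix.mul_assoc, Matrix.mul_assoc, ← Matrix.mul_assoc (Matrix.of b),
      Matrix.mul_nonsing_inv _ (isUnit_iff_ne_zero.2 (gram_det (b := Matrix.of b) hb)),
      Matrix.mul_one]
  exact h2

theorem PhM_cont {b v : Matrix (Fin d) (Fin m) ℝ} (hb : LinearIndependent ℝ b.row) :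
    ContinuousAt (fun p : (Matrix (Fin d) (Fin m) ℝ) × (Matrix (Fin d) (Fin m) ℝ) =>
      PhM p.1 p.2) (b, v) := by
  have hf : (fun p : (Matrix (Fin d) (Fin m) ℝ) × (Matrix (Fin d) (Fin m) ℝ) => PhM p.1 p.2) =
      fun p => p.2 * p.1.transpose * (((p.1 * p.1.transpose).det)⁻¹ •
        (p.1 * p.1.transpose).adjugate) := by
    funext p
    unfold PhM
    rw [Matrix.inv_def, Ring.inverse_eq_inv']
  rw [hf]
  have c1 : Continuous fun p : (Matrix (Fin d) (Fin m) ℝ) × (Matrix (Fin d) (Fin m) ℝ) => p.1 :=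
    continuous_fst
  have c2 : Continuous fun p : (Matrix (Fin d) (Fin m) ℝ) × (Matrix (Fin d) (Fin m) ℝ) => p.2 :=
    continuous_snd
  have c3 := c1.matrix_mul c1.matrix_transpose
  have c4 := c2.matrix_mul c1.matrix_transpose
  have h1 : ContinuousAt (fun p : (Matrix (Fin d) (Fin m) ℝ) × (Matrix (Fin d) (Fin m) ℝ) =>
      (((p.1 * p.1.transpose).det)⁻¹ • (p.1 * p.1.transpose).adjugate)) (b, v) :=
    (c3.matrix_det.continuousAt.inv₀ (gram_det hb)).smul c3.matrix_adjugate.continuousAt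
  have h2 : ContinuousAt (fun p : (Matrix (Fin d) (Fin m) ℝ) × (Matrix (Fin d) (Fin m) ℝ) =>
      (p.2 * p.1.transpose, (((p.1 * p.1.transpose).det)⁻¹ •
        (p.1 * p.1.transpose).adjugate))) (b, v) :=
    c4.continuousAt.prodMk h1
  have h3 : Continuous fun q : (Matrix (Fin d) (Fin d) ℝ) × (Matrix (Fin d) (Fin d) ℝ) =>
      q.1 * q.2 := continuous_fst.matrix_mul continuous_snd
  exact h3.continuousAt.comp h2

theorem Ph_cont {b v : Fin d → Fin m → ℝ} (hb : LinearIndependent ℝ b) :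
    ContinuousAt (fun p : (Fin d → Fin m → ℝ) × (Fin d → Fin m → ℝ) => Ph p.1 p.2) (b, v) :=
  PhM_cont (b := Matrix.of b) (v := Matrix.of v) hb

/-- Integral matrices are separated. -/
theorem dist_int {g h : Matrix (Fin d) (Fin d) ℤ}
    (hd : dist (fun i j => (g i j : ℝ) : Fin d → Fin d → ℝ) (fun i j => (h i j : ℝ)) < 1) :
    g = h := by
  ext i j
  have h1 : dist ((g i j : ℤ) : ℝ) ((h i j : ℤ) : ℝ) < 1 :=
    ((dist_le_pi_dist (fun j => (g i j : ℝ)) (fun j => (h i j : ℝ)) j).trans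
      (dist_le_pi_dist (fun i j => (g i j : ℝ) : Fin d → Fin d → ℝ)
        (fun i j => (h i j : ℝ)) i)).trans_lt hd
  rw [Int.dist_cast_real] at h1
  by_contra h2
  have h3 := Int.pairwise_one_le_dist h2
  linarith

theorem isClosed_int (S : Set (Matrix (Fin d) (Fin d) ℤ)) :
    IsClosed ((fun g : Matrix (Fin d) (Fin d) ℤ => (fun i j => (g i j : ℝ) : Fin d → Fin d → ℝ))
      '' S) := by
  apply isClosed_of_pairwise_le_dist one_pos
  rintro _ ⟨g, -, rfl⟩ _ ⟨h, -, rfl⟩ hne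
  by_contra h1
  push Not at h1
  exact hne (by rw [dist_int h1])

end Pool.Agent.J4H42.CI
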